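import Pool.Agent.Helper26.TZ8.IsoCheck

set_option autoImplicit false

/-! The operators of the model in coordinates; the model is generated in degree one. -/

namespace Pool.Agent.Helper26.TZ8

open Pool.Agent.TZ8

/-- The combination of the entries of the table. -/
def secSum (k b l b' l' : ℕ) : ℤ :=
  ((((secT k).getD b []).getD l []).map fun t => t.2.2.2 * adC k t.1 t.2.1 t.2.2.1 b' l').sum

/-- The table only uses basis vectors of level `k`. -/
def secOk (k b l : ℕ) : Bool :=
  (((secT k).getD b []).getD l []).all fun t =>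
    decide (t.1 < 2) && (decide (t.2.1 < nc k) && decide (t.2.2.1 < dg k t.2.1 + 1))

theorem sec_all : ∀ k < 7, ∀ b < nc (k + 1), ∀ l < dg (k + 1) b + 1, secOk k b l = true ∧
    ∀ b' < nc (k + 1), ∀ l' < dg (k + 1) b' + 1,
      secSum k b l b' l' = if b = b' ∧ l = l' then (NN k : ℤ) else 0 := by
  decide +kernel

section

variable {o : Type} [CommRing o]

theorem cf_eq {k : ℕ} (x : MT o k) (a : Fin (nc k)) (l : ℕ) (hl : l < dg k a + 1) :
    cf x a l = x a ⟨l, hl⟩ := by
  unfold cf
  rw [dif_pos ⟨a.isLt, hl⟩]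

theorem cf_eq_zero {k : ℕ} (x : MT o k) (a : Fin (nc k)) (l : ℕ) (hl : ¬ l < dg k a + 1) :
    cf x a l = 0 := by
  unfold cf
  rw [dif_neg (fun h => hl h.2)]

/-- A coefficient as a sum. -/
theorem cf_eq_sum {k : ℕ} (x : MT o k) (a : Fin (nc k)) (l : ℕ) :
    cf x a l = ∑ i : Fin (dg k a + 1), x a i * (if l = (i : ℕ) then 1 else 0) := by
  by_cases hl : l < dg k a + 1
  · rw [cf_eq x a l hl, Finset.sum_eq_single ⟨l, hl⟩]
    · simp
    · intro i _ hi
      have : l ≠ (i : ℕ) := fun h => hi (Fin.ext h.symm)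
      simp [this]
    · simp
  · rw [cf_eq_zero x a l hl]
    symm
    apply Finset.sum_eq_zero
    intro i _
    have : l ≠ (i : ℕ) := fun h => hl (h ▸ i.isLt)
    simp [this]

/-- The operators in coordinates. -/
theorem adT_apply {k : ℕ} (j : Fin 2) (x : MT o k) (b : Fin (nc (k + 1)))
    (l : Fin (dg (k + 1) b + 1)) :
    adT o k j x b l = ∑ a : Fin (nc k), ∑ i : Fin (dg k a + 1),
      x a i * ((adC k j a i b l : ℤ) : o) := by
  show ∑ a : Fin (nc k), ((cm k a b : o) * mulC x a j l + (cc k a b : o) * conC x a j l) = _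
  apply Finset.sum_congr rfl
  intro a _
  have hj : (j : ℕ) = 0 ∨ (j : ℕ) = 1 := by
    have := j.isLt
    omega
  have hm : mulC x a j l = ∑ i : Fin (dg k a + 1),
      x a i * (if (l : ℕ) = (i : ℕ) + (j : ℕ) then 1 else 0) := by
    rcases hj with hj | hj
    · unfold mulC
      rw [hj, if_pos rfl, cf_eq_sum]
      simp
    · unfold mulC
      rw [hj, if_neg one_ne_zero]
      split_ifs with h0
      · symm
        apply Finset.sum_eq_zero
        intro i _
        rw [h0, if_neg (by omega), mul_zero]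
      · rw [cf_eq_sum]
        apply Finset.sum_congr rfl
        intro i _
        congr 1
        have : ((l : ℕ) - 1 = (i : ℕ)) ↔ ((l : ℕ) = (i : ℕ) + 1) := by omega
        simp only [this]
  have hc : conC x a j l = ∑ i : Fin (dg k a + 1),
      x a i * (((if (j : ℕ) = 0 then (if (l : ℕ) + 1 = (i : ℕ) then -((i : ℕ) : ℤ) else 0)
        else (if (l : ℕ) = (i : ℕ) then ((dg k a - (i : ℕ) : ℕ) : ℤ) else 0) : ℤ) : o)) := by
    rcases hj with hj | hj
    · unfold conC
      rw [hj, if_pos rfl, cf_eq_sum, Finset.mul_sum, ← Finset.sum_neg_distrib]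
      apply Finset.sum_congr rfl
      intro i _
      rw [if_pos rfl]
      split_ifs with h
      · rw [h]
        push_cast
        ring
      · simp
    · unfold conC
      rw [hj, if_neg one_ne_zero, cf_eq_sum, Finset.mul_sum]
      apply Finset.sum_congr rfl
      intro i _
      rw [if_neg one_ne_zero]
      split_ifs with h
      · rw [h]
        push_cast
        ring
      · simp
  rw [hm, hc, Finset.mul_sum, Finset.mul_sum, ← Finset.sum_add_distrib]
  apply Finset.sum_congr rfl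
  intro i _
  unfold adC
  push_cast
  ring

/-- The basis vectors of the model. -/
def bv (o : Type) [CommRing o] (k a i : ℕ) : MT o k :=
  fun a' i' => if (a' : ℕ) = a ∧ (i' : ℕ) = i then 1 else 0

theorem adT_bv {k : ℕ} (j : Fin 2) (a i : ℕ) (ha : a < nc k) (hi : i < dg k a + 1)
    (b : Fin (nc (k + 1))) (l : Fin (dg (k + 1) b + 1)) :
    adT o k j (bv o k a i) b l = ((adC k j a i b l : ℤ) : o) := by
  rw [adT_apply, Finset.sum_eq_single ⟨a, ha⟩, Finset.sum_eq_single ⟨i, hi⟩]
  · simp [bv]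
  · intro i' _ h
    have : (i' : ℕ) ≠ i := fun h' => h (Fin.ext h')
    simp [bv, this]
  · simp
  · intro a' _ h
    have : (a' : ℕ) ≠ a := fun h' => h (Fin.ext h')
    apply Finset.sum_eq_zero
    intro i' _
    simp [bv, this]
  · simp

theorem eq_sum_bv {k : ℕ} (x : MT o k) :
    x = ∑ a : Fin (nc k), ∑ i : Fin (dg k a + 1), x a i • bv o k a i := by
  funext a i
  simp only [Finset.sum_apply, Pi.smul_apply, smul_eq_mul]
  rw [Finset.sum_eq_single a, Finset.sum_eq_single i]
  · simp [bv]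
  · intro i' _ h
    have : (i : ℕ) ≠ (i' : ℕ) := fun h' => h (Fin.ext h'.symm)
    simp [bv, this]
  · simp
  · intro a' _ h
    have : (a : ℕ) ≠ (a' : ℕ) := fun h' => h (Fin.ext h'.symm)
    apply Finset.sum_eq_zero
    intro i' _
    simp [bv, this]
  · simp

theorem NN_unit (h : IsUnit ((210 : ℕ) : o)) : ∀ k < 7, IsUnit ((NN k : ℕ) : o) := by
  have key : ∀ n m : ℕ, n ∣ 210 ^ m → IsUnit ((n : ℕ) : o) := by
    intro n m hn
    obtain ⟨c, hc⟩ := hn
    have h1 : IsUnit (((210 : ℕ) : o) ^ m) := h.pow m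
    rw [← Nat.cast_pow, hc, Nat.cast_mul] at h1
    exact isUnit_of_mul_isUnit_left h1
  intro k hk
  apply key _ 6
  interval_cases k <;> decide

theorem DD_unit (h : IsUnit ((210 : ℕ) : o)) : ∀ k < 8, IsUnit ((DD k : ℕ) : o) := by
  have key : ∀ n m : ℕ, n ∣ 210 ^ m → IsUnit ((n : ℕ) : o) := by
    intro n m hn
    obtain ⟨c, hc⟩ := hn
    have h1 : IsUnit (((210 : ℕ) : o) ^ m) := h.pow m
    rw [← Nat.cast_pow, hc, Nat.cast_mul] at h1
    exact isUnit_of_mul_isUnit_left h1
  intro k hk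
  apply key _ 6
  interval_cases k <;> decide

/-- The model is generated in degree one. -/
theorem gen (h : IsUnit ((210 : ℕ) : o)) (k : ℕ) (hk : k < 7) :
    (LinearMap.range (adT o k 0)) ⊔ (LinearMap.range (adT o k 1)) = ⊤ := by
  rw [eq_top_iff]
  intro x _
  rw [eq_sum_bv x]
  apply Submodule.sum_mem
  intro b _
  apply Submodule.sum_mem
  intro l _
  apply Submodule.smul_mem
  obtain ⟨h1, h2⟩ := sec_all k hk b b.isLt l l.isLt
  obtain ⟨u, hu⟩ := NN_unit h k hk
  set S := LinearMap.range (adT o k 0) ⊔ LinearMap.range (adT o k 1) with hS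
  -- the combination
  have key : ∀ L : List (ℕ × ℕ × ℕ × ℤ),
      (L.all fun t => decide (t.1 < 2) && (decide (t.2.1 < nc k) &&
        decide (t.2.2.1 < dg k t.2.1 + 1))) = true →
      ∃ y ∈ S, ∀ (b' : Fin (nc (k + 1))) (l' : Fin (dg (k + 1) b' + 1)), y b' l' =
        (((L.map fun t => t.2.2.2 * adC k t.1 t.2.1 t.2.2.1 b' l').sum : ℤ) : o) := by
    intro L
    induction L with
    | nil =>
      intro _
      exact ⟨0, Submodule.zero_mem _, by simp⟩
    | cons t L ih =>
      intro hL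
      rw [List.all_cons, Bool.and_eq_true, Bool.and_eq_true, Bool.and_eq_true, decide_eq_true_eq,
        decide_eq_true_eq, decide_eq_true_eq] at hL
      obtain ⟨⟨hj, ha, hi⟩, hL⟩ := hL
      obtain ⟨y, hy, hy'⟩ := ih hL
      refine ⟨(t.2.2.2 : o) • adT o k ⟨t.1, hj⟩ (bv o k t.2.1 t.2.2.1) + y, ?_, ?_⟩
      · apply Submodule.add_mem _ _ hy
        apply Submodule.smul_mem
        have hj2 : (⟨t.1, hj⟩ : Fin 2) = 0 ∨ (⟨t.1, hj⟩ : Fin 2) = 1 := by
          rcases (show t.1 = 0 ∨ t.1 = 1 by omega) with h0 | h0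
          · left; exact Fin.ext h0
          · right; exact Fin.ext h0
        rcases hj2 with h0 | h0
        · rw [h0]
          exact Submodule.mem_sup_left ⟨_, rfl⟩
        · rw [h0]
          exact Submodule.mem_sup_right ⟨_, rfl⟩
      · intro b' l'
        rw [Pi.add_apply, Pi.add_apply, Pi.smul_apply, Pi.smul_apply, adT_bv _ _ _ ha hi, hy',
          List.map_cons, List.sum_cons, smul_eq_mul]
        push_cast
        ring
  obtain ⟨y, hy, hy'⟩ := key _ h1
  have hbv : bv o (k + 1) b l = ((u⁻¹ : oˣ) : o) • y := by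
    funext b' l'
    rw [Pi.smul_apply, Pi.smul_apply, hy']
    have h3 := h2 b' b'.isLt l' l'.isLt
    unfold secSum at h3
    rw [h3]
    by_cases hb : (b : ℕ) = b' ∧ (l : ℕ) = l'
    · rw [if_pos hb, bv, if_pos ⟨hb.1.symm, hb.2.symm⟩, Int.cast_natCast, ← hu, smul_eq_mul,
        Units.inv_mul]
    · rw [if_neg hb, bv, if_neg (fun h => hb ⟨h.1.symm, h.2.symm⟩)]
      simp
  rw [hbv]
  exact Submodule.smul_mem _ _ hy

end

end Pool.Agent.Helper26.TZ8
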