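import Pool.Agent.Helper26.TZ8.IsoData

set_option autoImplicit false

/-! Arithmetic of the tables. -/

namespace Pool.Agent.Helper26.TZ8

open Pool.Agent.TZ8

/-- Decoding. -/
def dec : ℕ → ℕ → List ℤ
  | 0, _ => []
  | n + 1, M => (((M % 65536 : ℕ) : ℤ) - 32768) :: dec n (M / 65536)

/-- The coefficients of the image of the basis vector `(a, i)` of level `k`. -/
def WL (k a i : ℕ) : List ℤ := dec (2 ^ (k + 1)) (((tabN k).getD a []).getD i 0)

/-- The coefficient of the basis vector `(b, l)` of level `k + 1` in the bracket of the basis vector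
`(a, i)` of level `k` with the letter `j`. -/
def adC (k j a i b l : ℕ) : ℤ :=
  cm k a b * (if l = i + j then 1 else 0) +
    cc k a b * (if j = 0 then (if l + 1 = i then -(i : ℤ) else 0)
      else (if l = i then ((dg k a - i : ℕ) : ℤ) else 0))

/-- Multiplication by a scalar. -/
def scL (c : ℤ) (L : List ℤ) : List ℤ := if c = 0 then [] else L.map (fun x => c * x)

/-- Addition. -/
def addL : List ℤ → List ℤ → List ℤ
  | [], L => L
  | a :: L, [] => a :: L
  | a :: L, b :: M => (a + b) :: addL L M

/-- A letter in front of the word. -/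
def preL (j : ℕ) : List ℤ → List ℤ
  | [] => []
  | a :: L => if j = 0 then a :: 0 :: preL j L else 0 :: a :: preL j L

/-- A letter behind the word. -/
def appL (n j : ℕ) (L : List ℤ) : List ℤ := if j = 0 then L else List.replicate (2 ^ n) 0 ++ L

/-- All entries are zero. -/
def allZ : List ℤ → Bool
  | [] => true
  | b :: M => decide (b = 0) && allZ M

/-- Equality up to zeros at the end. -/
def eqv : List ℤ → List ℤ → Bool
  | [], M => allZ M
  | a :: L, [] => allZ (a :: L)
  | a :: L, b :: M => decide (a = b) && eqv L M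

/-- Sum of lists. -/
def sumL {α : Type} (l : List α) (f : α → List ℤ) : List ℤ :=
  l.foldr (fun x s => addL (f x) s) []

/-- The image of the bracket computed at level `k + 1`. -/
def comb (k j a i : ℕ) : List ℤ :=
  sumL (List.range (nc (k + 1))) fun b => sumL (List.range (dg (k + 1) b + 1)) fun l =>
    scL (adC k j a i b l) (WL (k + 1) b l)

/-- The bracket with the letter `j`. -/
def brL (n j : ℕ) (L : List ℤ) : List ℤ := addL (appL n j L) (scL (-1) (preL j L))

/-- The compatibility at `(k, j, a, i)`. -/
def chk (k j a i : ℕ) : Bool :=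
  eqv (scL (DD k) (comb k j a i)) (scL (DD (k + 1)) (brL (k + 1) j (WL k a i)))

theorem chk_all : ∀ k < 7, ∀ j < 2, ∀ a < nc k, ∀ i < dg k a + 1, chk k j a i = true := by
  decide +kernel

theorem getD_scL (c : ℤ) (L : List ℤ) (N : ℕ) : (scL c L).getD N 0 = c * L.getD N 0 := by
  unfold scL
  split_ifs with h
  · simp [h]
  · have := List.getD_map (f := fun x : ℤ => c * x) (l := L) (d := 0) (n := N)
    simpa using this

theorem getD_addL : ∀ (L M : List ℤ) (N : ℕ),
    (addL L M).getD N 0 = L.getD N 0 + M.getD N 0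
  | [], M, N => by simp [addL]
  | a :: L, [], N => by simp [addL]
  | a :: L, b :: M, 0 => by simp [addL]
  | a :: L, b :: M, N + 1 => by
    simp only [addL, List.getD_cons_succ]
    exact getD_addL L M N

theorem getD_preL (j : ℕ) (hj : j < 2) : ∀ (L : List ℤ) (N : ℕ),
    (preL j L).getD N 0 = if N % 2 = j then L.getD (N / 2) 0 else 0
  | [], N => by simp [preL]
  | a :: L, 0 => by
    have : j = 0 ∨ j = 1 := by omega
    rcases this with rfl | rfl <;> simp [preL]
  | a :: L, 1 => by
    have : j = 0 ∨ j = 1 := by omega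
    rcases this with rfl | rfl <;> simp [preL]
  | a :: L, N + 2 => by
    have h := getD_preL j hj L N
    have h1 : (N + 2) % 2 = N % 2 := by omega
    have h2 : (N + 2) / 2 = N / 2 + 1 := by omega
    rw [h1, h2, List.getD_cons_succ, ← h]
    by_cases h3 : j = 0
    · simp only [preL, if_pos h3, List.getD_cons_succ]
    · simp only [preL, if_neg h3, List.getD_cons_succ]

theorem getD_appL (n j : ℕ) (hj : j < 2) (L : List ℤ) (hL : L.length ≤ 2 ^ n) (N : ℕ)
    (hN : N < 2 ^ (n + 1)) :
    (appL n j L).getD N 0 = if N / 2 ^ n = j then L.getD (N % 2 ^ n) 0 else 0 := by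
  have hp : 0 < 2 ^ n := by positivity
  rw [pow_succ] at hN
  rcases lt_or_ge N (2 ^ n) with h | h
  · have h1 : N / 2 ^ n = 0 := Nat.div_eq_of_lt h
    have h2 : N % 2 ^ n = N := Nat.mod_eq_of_lt h
    rw [h1, h2]
    have : j = 0 ∨ j = 1 := by omega
    rcases this with rfl | rfl
    · simp [appL]
    · simp only [appL, if_neg one_ne_zero, if_neg zero_ne_one]
      rw [List.getD_append _ _ _ _ (by simpa using h)]
      simp [h]
  · have h1 : N / 2 ^ n = 1 := by
      apply Nat.div_eq_of_lt_le <;> omega
    have h2 : N % 2 ^ n = N - 2 ^ n := by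
      rw [Nat.mod_eq_sub_mod h, Nat.mod_eq_of_lt (by omega)]
    rw [h1, h2]
    have : j = 0 ∨ j = 1 := by omega
    rcases this with rfl | rfl
    · simp only [appL, if_pos, if_neg one_ne_zero]
      rw [List.getD_eq_default _ _ (by omega)]
    · simp only [appL, if_neg one_ne_zero, if_pos]
      rw [List.getD_append_right _ _ _ _ (by simpa using h)]
      simp

theorem getD_allZ : ∀ (L : List ℤ), allZ L = true → ∀ N, L.getD N 0 = 0
  | [], _, N => by simp
  | b :: M, h, N => by
    simp only [allZ, Bool.and_eq_true, decide_eq_true_eq] at h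
    cases N with
    | zero => simp [h.1]
    | succ N =>
      rw [List.getD_cons_succ]
      exact getD_allZ M h.2 N

theorem getD_eqv : ∀ (L M : List ℤ), eqv L M = true → ∀ N, L.getD N 0 = M.getD N 0
  | [], M, h, N => by
    rw [getD_allZ M h N]
    simp
  | a :: L, [], h, N => by
    rw [getD_allZ (a :: L) h N]
    simp
  | a :: L, b :: M, h, N => by
    simp only [eqv, Bool.and_eq_true, decide_eq_true_eq] at h
    cases N with
    | zero => simp [h.1]
    | succ N =>
      have := getD_eqv L M h.2 N
      simpa using this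

theorem getD_sumL {α : Type} (l : List α) (f : α → List ℤ) (N : ℕ) :
    (sumL l f).getD N 0 = (l.map fun x => (f x).getD N 0).sum := by
  induction l with
  | nil => simp [sumL]
  | cons a l ih =>
    have : sumL (a :: l) f = addL (f a) (sumL l f) := rfl
    rw [this, getD_addL, ih]
    simp

theorem getD_sumL_range (n : ℕ) (f : ℕ → List ℤ) (N : ℕ) :
    (sumL (List.range n) f).getD N 0 = ∑ x ∈ Finset.range n, (f x).getD N 0 := by
  rw [getD_sumL]
  rw [Finset.sum_range, ← List.sum_ofFn, List.ofFn_eq_map]
  congr 1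
  rw [← List.map_coe_finRange_eq_range, List.map_map]
  rfl

theorem length_dec : ∀ n M, (dec n M).length = n
  | 0, _ => rfl
  | n + 1, M => by simp [dec, length_dec n]

/-- The coefficient of the word with number `N`. -/
def WV (k a i N : ℕ) : ℤ := (WL k a i).getD N 0

/-- The compatibility. -/
theorem compat_int (k : ℕ) (hk : k < 7) (j : ℕ) (hj : j < 2) (a : ℕ) (ha : a < nc k) (i : ℕ)
    (hi : i < dg k a + 1) (N : ℕ) (hN : N < 2 ^ (k + 2)) :
    (DD k : ℤ) * ∑ b ∈ Finset.range (nc (k + 1)), ∑ l ∈ Finset.range (dg (k + 1) b + 1),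
      adC k j a i b l * WV (k + 1) b l N =
    (DD (k + 1) : ℤ) * ((if N / 2 ^ (k + 1) = j then WV k a i (N % 2 ^ (k + 1)) else 0) -
      (if N % 2 = j then WV k a i (N / 2) else 0)) := by
  have h := getD_eqv _ _ (chk_all k hk j hj a ha i hi) N
  rw [getD_scL, getD_scL, comb, getD_sumL_range, brL, getD_addL, getD_scL,
    getD_appL (k + 1) j hj _ (by rw [WL, length_dec]) N hN, getD_preL j hj] at h
  simp only [getD_sumL_range, getD_scL] at h
  unfold WV
  rw [h]
  ring

end Pool.Agent.Helper26.TZ8
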