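import Pool.Agent.TZ.LR

set_option autoImplicit false

/-! Ranks of the components of degrees 1, ..., 8 of the free Lie algebra on two generators. -/

namespace Pool.Agent.Helper26.TZ8

open Pool.Agent.TZ

/-- The number of a word in two letters (the first letter is the last binary digit). -/
def idx : (n : ℕ) → (Fin n → Fin 2) → ℕ
  | 0, _ => 0
  | n + 1, w => (w 0 : ℕ) + 2 * idx n (Fin.tail w)

theorem idx_lt : ∀ (n : ℕ) (w : Fin n → Fin 2), idx n w < 2 ^ n
  | 0, _ => by simp [idx]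
  | n + 1, w => by
    have h := idx_lt n (Fin.tail w)
    have h2 := (w 0).isLt
    simp only [idx]
    rw [pow_succ]
    omega

theorem idx_last : ∀ (n : ℕ) (w : Fin (n + 1) → Fin 2),
    idx (n + 1) w = idx n (Fin.init w) + (w (Fin.last n) : ℕ) * 2 ^ n
  | 0, w => by
    simp [idx]
  | n + 1, w => by
    have h := idx_last n (Fin.tail w)
    have h1 : idx (n + 2) w = (w 0 : ℕ) + 2 * idx (n + 1) (Fin.tail w) := rfl
    have h2 : idx (n + 1) (Fin.init w) = (Fin.init w 0 : ℕ) + 2 * idx n (Fin.tail (Fin.init w)) :=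
      rfl
    have h3 : Fin.init w 0 = w 0 := rfl
    have h4 : Fin.tail (Fin.init w) = Fin.init (Fin.tail w) := Fin.tail_init_eq_init_tail w
    have h5 : Fin.tail w (Fin.last n) = w (Fin.last (n + 1)) := rfl
    rw [h1, h, h2, h3, h4, h5, pow_succ]
    ring

theorem idx_injective : ∀ (n : ℕ), Function.Injective (idx n)
  | 0 => fun a b _ => by
    funext i
    exact i.elim0
  | n + 1 => fun a b h => by
    have h' : (a 0 : ℕ) + 2 * idx n (Fin.tail a) = (b 0 : ℕ) + 2 * idx n (Fin.tail b) := h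
    have ha := (a 0).isLt
    have hb := (b 0).isLt
    have h0 : (a 0 : ℕ) = b 0 := by omega
    have h1 : idx n (Fin.tail a) = idx n (Fin.tail b) := by omega
    have h2 := idx_injective n h1
    rw [← Fin.cons_self_tail a, ← Fin.cons_self_tail b, h2]
    have : a 0 = b 0 := Fin.ext h0
    rw [this]

/-- The sum over all words as a sum over their numbers. -/
theorem sum_idx {A : Type} [AddCommMonoid A] (n : ℕ) (f : ℕ → A) :
    ∑ w : Fin n → Fin 2, f (idx n w) = ∑ N ∈ Finset.range (2 ^ n), f N := by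
  have hinj := idx_injective n
  have himg : Finset.univ.image (idx n) = Finset.range (2 ^ n) := by
    apply Finset.eq_of_subset_of_card_le
    · intro x hx
      rw [Finset.mem_image] at hx
      obtain ⟨w, _, rfl⟩ := hx
      exact Finset.mem_range.2 (idx_lt n w)
    · rw [Finset.card_image_of_injective _ hinj]
      simp
  rw [← himg, Finset.sum_image (fun a _ b _ h => hinj h)]

/-- Coefficient of a word in a left normed bracket. -/
def cfN : ℕ → ℕ → ℕ → ℤ
  | 0, w, v => if v = w then 1 else 0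
  | n + 1, w, v =>
    (if v / 2 ^ (n + 1) = w / 2 ^ (n + 1) then cfN n (w % 2 ^ (n + 1)) (v % 2 ^ (n + 1)) else 0) -
      (if v % 2 = w / 2 ^ (n + 1) then cfN n (w % 2 ^ (n + 1)) (v / 2) else 0)

theorem ev_wbr_eq (o : Type) [CommRing o] : ∀ (n : ℕ) (w v : Fin (n + 1) → Fin 2),
    ev o 2 n (wbr o n w) v = ((cfN n (idx (n + 1) w) (idx (n + 1) v) : ℤ) : o)
  | 0, w, v => by
    rw [ev_wbr_zero]
    have hw : idx 1 w = (w 0 : ℕ) := by simp [idx]
    have hv : idx 1 v = (v 0 : ℕ) := by simp [idx]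
    rw [hw, hv]
    simp only [cfN]
    have : (v 0 = w 0) ↔ ((v 0 : ℕ) = (w 0 : ℕ)) := Fin.ext_iff
    by_cases h : v 0 = w 0
    · rw [if_pos h, if_pos (this.1 h)]
      simp
    · rw [if_neg h, if_neg (fun h' => h (this.2 h'))]
      simp
  | n + 1, w, v => by
    rw [ev_wbr_succ, ev_wbr_eq o n, ev_wbr_eq o n]
    have hw := idx_last (n + 1) w
    have hv := idx_last (n + 1) v
    have hwl := idx_lt (n + 1) (Fin.init w)
    have hvl := idx_lt (n + 1) (Fin.init v)
    have hv0 : idx (n + 2) v = (v 0 : ℕ) + 2 * idx (n + 1) (Fin.tail v) := rfl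
    have hpos : 0 < 2 ^ (n + 1) := by positivity
    have e1 : idx (n + 2) w / 2 ^ (n + 1) = (w (Fin.last (n + 1)) : ℕ) := by
      rw [hw, Nat.add_mul_div_right _ _ hpos, Nat.div_eq_of_lt hwl, zero_add]
    have e2 : idx (n + 2) w % 2 ^ (n + 1) = idx (n + 1) (Fin.init w) := by
      rw [hw, Nat.add_mul_mod_self_right, Nat.mod_eq_of_lt hwl]
    have e3 : idx (n + 2) v / 2 ^ (n + 1) = (v (Fin.last (n + 1)) : ℕ) := by
      rw [hv, Nat.add_mul_div_right _ _ hpos, Nat.div_eq_of_lt hvl, zero_add]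
    have e4 : idx (n + 2) v % 2 ^ (n + 1) = idx (n + 1) (Fin.init v) := by
      rw [hv, Nat.add_mul_mod_self_right, Nat.mod_eq_of_lt hvl]
    have hv00 := (v 0).isLt
    have e5 : idx (n + 2) v % 2 = (v 0 : ℕ) := by omega
    have e6 : idx (n + 2) v / 2 = idx (n + 1) (Fin.tail v) := by omega
    simp only [cfN, e1, e2, e3, e4, e5, e6]
    have i1 : (v (Fin.last (n + 1)) = w (Fin.last (n + 1))) ↔
      ((v (Fin.last (n + 1)) : ℕ) = (w (Fin.last (n + 1)) : ℕ)) := Fin.ext_iff
    have i2 : (v 0 = w (Fin.last (n + 1))) ↔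
      ((v 0 : ℕ) = (w (Fin.last (n + 1)) : ℕ)) := Fin.ext_iff
    push_cast
    congr 1
    · by_cases h : v (Fin.last (n + 1)) = w (Fin.last (n + 1))
      · rw [if_pos h, if_pos (i1.1 h)]
      · rw [if_neg h, if_neg (fun h' => h (i1.2 h'))]
    · by_cases h : v 0 = w (Fin.last (n + 1))
      · rw [if_pos h, if_pos (i2.1 h)]
      · rw [if_neg h, if_neg (fun h' => h (i2.2 h'))]

/-- The ranks of the components of degrees 1, ..., 8. -/
def mm : ℕ → ℕ
  | 0 => 2
  | 1 => 1
  | 2 => 2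
  | 3 => 3
  | 4 => 6
  | 5 => 9
  | 6 => 18
  | 7 => 30
  | _ => 0

theorem trace_cfN : ∀ i < 8, ∑ N ∈ Finset.range (2 ^ (i + 1)), cfN i N N = (mm i * (i + 1) : ℤ) := by
  decide +kernel

theorem rank_eq {o : Type} [CommRing o] [IsDomain o] [IsDiscreteValuationRing o] [CharZero o]
    (i : ℕ) (hi : i < 8) (hu : IsUnit ((i + 1 : ℕ) : o)) :
    Module.finrank o (LM o 2 i) = mm i := by
  have h := rank_mul (o := o) (d := 2) i hu
  have h1 : ∀ w : Fin (i + 1) → Fin 2, ev o 2 i (wbr o i w) w =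
      (fun N : ℕ => ((cfN i N N : ℤ) : o)) (idx (i + 1) w) := fun w => ev_wbr_eq o i w w
  rw [Finset.sum_congr rfl (fun w _ => h1 w), sum_idx (i + 1) (fun N : ℕ => ((cfN i N N : ℤ) : o)),
    ← Int.cast_sum, trace_cfN i hi] at h
  have h2 : ((Module.finrank o (LM o 2 i) * (i + 1) : ℕ) : o) = ((mm i * (i + 1) : ℕ) : o) := by
    rw [h]
    push_cast
    ring
  have h3 := Nat.cast_injective (R := o) h2
  exact Nat.eq_of_mul_eq_mul_right (Nat.succ_pos i) h3

end Pool.Agent.Helper26.TZ8
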